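import Mathlib
import Pool.Agent.Lib.MP_8f9e48_lc.Defs
import Pool.Agent.Lib.MP_8f9e48_lc.Proof

/-!
# Unary grammar forms have unary-complete families (problem MP_8f9e48_lc, Q1)

The definitions are in `Pool.Agent.Lib.MP_8f9e48_lc.Defs`, the proof is in
`Pool.Agent.Lib.MP_8f9e48_lc.Proof`.
-/

namespace Pool.Agent.Results.MP_8f9e48_lc.UnaryComplete

open Pool.Agent.Lib.MP_8f9e48_lc

universe u

/-- For every unary context-free grammar `G`, with letters from an arbitrary infinite set `α`, the
grammatical family of `G` is unary-complete. -/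
theorem result {α : Type u} [Infinite α] (G : Grammar α) (hG : G.IsUnary) :
    IsUnaryComplete G.family :=
  main G hG

end Pool.Agent.Results.MP_8f9e48_lc.UnaryComplete
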